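import Mathlib
import Pool.Agent.H.MP_88803c_co.A

namespace Pool.Agent.Results.MP_88803c_co.Exists

universe u

theorem result : ∀ μ : Cardinal.{u}, ∃ i : Cardinal.{u}, ∀ (P : Type u) [PartialOrder P],
    (¬ ∃ A : Set P, IsAntichain (· ≤ ·) A ∧ Cardinal.mk A = μ) →
    ¬ ∃ B : Set (Set P), (∀ J ∈ B, IsLowerSet J ∧ DirectedOn (· ≤ ·) J) ∧
      IsAntichain (· ⊆ ·) B ∧ Cardinal.mk B = i := by
  intro μ
  obtain ⟨i, hi⟩ := Pool.Agent.H.MP_88803c_co.main μ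
  refine ⟨i, fun P _ hP => ?_⟩
  rintro ⟨B, h1, h2, h3⟩
  exact hi P (fun A hA e => hP ⟨A, hA, e⟩) B h1 h2 h3

end Pool.Agent.Results.MP_88803c_co.Exists
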